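import Pool.Agent.H46.RE.Fin
import Pool.Agent.H46.RE.Par
import Pool.Agent.H46.RE.Ax

/-!
# MP_0cd485_lc: an elementary embedding of the universe is not definable over its target

The theory `T` of the problem (ZF for formulas in the membership relation and `j`, elementarity of `j`,
`j` is not the identity), possibly with one more class `D`, is studied through all its models
`(M, E, j, D)`. Formulas, satisfaction, the axioms `ZF`, elementarity `Elem` and the class `j(X)`
(`ImgCl`) are defined in `Pool/Agent/H46/RE/Defs.lean`.
-/

set_option autoImplicit false

namespace Pool.Agent.Results.MP_0cd485_lc.TargetUndefinable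

open Pool.Agent.H46.RE

universe u

/-- Let `(M, E, j, D)` be a model of ZF with Separation and Replacement for all formulas in the
membership relation `E`, the map `j` and the class `D`. Let `j` be an elementary embedding of `(M, E)`
into itself, not the identity. Let `X` be any class which is definable with parameters over
`(M, E, j, D)`, for example `D`, or the class of all pairs `(x, j(x))`. Then `j` is not definable with
parameters over `(M, E, j(X))`, where `j(X)` is the union of all `j(X ∩ a)`. -/
theorem result {M : Type u} (E : M → M → Prop) (j : M → M) (D : M → Prop)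
    (hZF : ZF E D (fun x y => j x = y)) (hj : Elem E j) (hn : ∃ x, j x ≠ x)
    (X : M → Prop)
    (hX : ∃ (θ : Fml) (w : ℕ → M), ∀ x, X x ↔ Sat E D (fun x y => j x = y) θ (cons x w)) :
    ¬ ∃ (φ : Fml) (v : ℕ → M), ∀ x y,
      j x = y ↔ Sat E (ImgCl E j X) (fun _ _ => False) φ (cons x (cons y v)) := by
  obtain ⟨θ, w, hθ⟩ := hX
  exact main (Par_model hZF.model hθ) hj hn

end Pool.Agent.Results.MP_0cd485_lc.TargetUndefinable
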